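import Mathlib
import Pool.Agent.J4.H20.PT.CaseA
import Pool.Agent.J4.H20.PT.CaseB
import Pool.Agent.J4.H20.PT.CaseC

/-!
# Every integer `n > 51` is a sum of four pentagonal-type numbers with prescribed signs

Every natural number `n > 51` is of the form
`w(5w-1)/2 + x(5x-1)/2 + y(5y+1)/2 + z(5z+1)/2` with natural numbers `w, x, y, z`.

Put `N = 40 n + 4`.  One needs four integers `u_i ≡ 1 mod 10` with `∑ u_i² = N`, two of them
positive and two negative.  The signs are forced by an equation `c · u = T` with `T²` close enough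
to `|c|² N`, where `c` has two positive and two negative entries; such `u` are found as quaternion
quotients from Legendre's three squares theorem, with `c = (1,1,-1,-1)`, `(2,2,-3,-3)` or
`(1,6,-4,-4)` according to `N` modulo `9`.  The numbers `52 ≤ n ≤ 200000` are checked by the kernel.
-/

set_option autoImplicit false

namespace Pool.Agent.Results.MP_a2b463_nt.EveryIntegerAbove51

open Pool.Agent.J4.H20.PT

/-- Every natural number `n > 51` is of the form
`w(5w-1)/2 + x(5x-1)/2 + y(5y+1)/2 + z(5z+1)/2` with natural numbers `w, x, y, z`. -/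
theorem result (n : ℕ) (hn : 51 < n) :
    ∃ w x y z : ℕ, (n : ℚ) = (w : ℚ) * (5 * w - 1) / 2 + (x : ℚ) * (5 * x - 1) / 2 +
      (y : ℚ) * (5 * y + 1) / 2 + (z : ℚ) * (5 * z + 1) / 2 := by
  have hrep : Rep n := by
    rcases le_or_gt n 200000 with h | h
    · exact rep_small n hn h
    · have h3 : n % 3 = 0 ∨ n % 3 = 1 ∨ n % 3 = 2 := by omega
      rcases h3 with h3 | h3 | h3
      · exact caseA n (by omega) (Or.inl h3)
      · exact caseB n h.le h3
      · exact caseC n h.le h3
  obtain ⟨w, x, y, z, h⟩ := hrep
  refine ⟨w, x, y, z, ?_⟩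
  have h2 := congrArg (Int.cast : ℤ → ℚ) h
  push_cast at h2
  linarith

end Pool.Agent.Results.MP_a2b463_nt.EveryIntegerAbove51
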